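import Mathlib

set_option autoImplicit false

namespace Pool.Agent.Results.MP_114a18_co.ConnectedCore

/-- The graph of the edges of colour `i` of an edge-colouring `e` of `K_n`. -/
def colourGraph {n k : ℕ} (e : Sym2 (Fin n) → Fin k) (i : Fin k) : SimpleGraph (Fin n) where
  Adj x y := x ≠ y ∧ e s(x, y) = i
  symm := ⟨fun x y h => ⟨h.1.symm, by rw [Sym2.eq_swap]; exact h.2⟩⟩
  loopless := ⟨fun _ h => h.1 rfl⟩

/-- The edge-colouring `e` of `K_n` has a rainbow triangle. -/
def HasRainbowTriangle {n k : ℕ} (e : Sym2 (Fin n) → Fin k) : Prop :=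
  ∃ x y z : Fin n, x ≠ y ∧ y ≠ z ∧ x ≠ z ∧
    e s(x, y) ≠ e s(y, z) ∧ e s(y, z) ≠ e s(x, z) ∧ e s(x, y) ≠ e s(x, z)

/-- The edge-colouring `e` of `K_n` contains a monochromatic homomorphic copy of `H`: for some
colour `i` there is a homomorphism from `H` to the graph of the edges of colour `i`. -/
def HasMonoHomCopy {V : Type} {n k : ℕ} (H : SimpleGraph V) (e : Sym2 (Fin n) → Fin k) : Prop :=
  ∃ i : Fin k, Nonempty (H →g colourGraph e i)

/-- The set of all `n` such that every edge-colouring of `K_n` with `k` colours and without rainbow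
triangle contains a monochromatic homomorphic copy of `H`. -/
def GRSet {V : Type} (k : ℕ) (H : SimpleGraph V) : Set ℕ :=
  {n | ∀ e : Sym2 (Fin n) → Fin k, HasRainbowTriangle e ∨ HasMonoHomCopy H e}

/-- The set of all `N ≥ 1` such that every colouring with `k` colours of the vertices (`c`) and of
the edges (`e`) of `K_N` has a rainbow triangle, or a monochromatic homomorphic copy of `H` (both
in the colouring of the edges), or an edge with the same colour as one of its endpoints. -/
def GRStarSet {V : Type} (k : ℕ) (H : SimpleGraph V) : Set ℕ :=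
  {N | 1 ≤ N ∧ ∀ (c : Fin N → Fin k) (e : Sym2 (Fin N) → Fin k),
    HasRainbowTriangle e ∨ HasMonoHomCopy H e ∨
      ∃ i j : Fin N, i < j ∧ (e s(i, j) = c i ∨ e s(i, j) = c j)}

section Core

variable {α κ W : Type} [DecidableEq α]

/-- `H'` maps homomorphically to the graph of the edges of colour `i` inside `A`. -/
def HomIn (H' : SimpleGraph W) (e : α → α → κ) (A : Finset α) (i : κ) : Prop :=
  ∃ φ : W → α, (∀ w, φ w ∈ A) ∧ ∀ x y, H'.Adj x y → φ x ≠ φ y ∧ e (φ x) (φ y) = i

/-- no rainbow triangle inside `A` -/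
def Gallai (e : α → α → κ) (A : Finset α) : Prop :=
  ∀ x ∈ A, ∀ y ∈ A, ∀ z ∈ A, x ≠ y → y ≠ z → x ≠ z →
    ¬ (e x y ≠ e y z ∧ e y z ≠ e x z ∧ e x y ≠ e x z)

/-- every vertex of `A` misses a colour of `S` inside `A` -/
def Miss (e : α → α → κ) (A : Finset α) (S : Set κ) : Prop :=
  ∀ v ∈ A, ∃ s ∈ S, ∀ u ∈ A, u ≠ v → e v u ≠ s

/-- the conclusion of the main lemma -/
structure Good (H' : SimpleGraph W) (e : α → α → κ) (A : Finset α) (S : Set κ)
    (s₀ : κ) (e' : α → α → κ) : Prop where
  symm : ∀ u v, e' u v = e' v u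
  gallai : Gallai e' A
  avoid : ∀ u ∈ A, ∀ v ∈ A, u ≠ v → e' u v ≠ s₀
  homOut : ∀ i, i ∉ S → ∃ f : α → α, (∀ v ∈ A, f v ∈ A) ∧
    ∀ u ∈ A, ∀ v ∈ A, u ≠ v → e' u v = i → f u ≠ f v ∧ e (f u) (f v) = i
  homIn : ∀ i ∈ S, HomIn H' e' A i → ∃ j ∈ S, HomIn H' e A j

theorem main_lemma (H' : SimpleGraph W) (hconn : H'.Connected) :
    ∀ (n : ℕ) (A : Finset α), A.card = n → A.Nonempty → ∀ (e : α → α → κ),
      (∀ u v, e u v = e v u) → Gallai e A → ∀ S : Set κ, Miss e A S →
      ∃ s₀ ∈ S, ∃ e' : α → α → κ, Good H' e A S s₀ e' := by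
  classical
  intro n
  induction n using Nat.strong_induction_on with
  | _ n ih =>
    intro A hAn hA e hsymm hG S hmiss
    obtain ⟨v0, hv0⟩ := hA
    obtain ⟨s, hsS, hs⟩ := hmiss v0 hv0
    -- the graph of colour s inside A
    let Gs : SimpleGraph α :=
      { Adj := fun x y => x ≠ y ∧ x ∈ A ∧ y ∈ A ∧ e x y = s
        symm := ⟨fun x y h => ⟨h.1.symm, h.2.2.1, h.2.1, by rw [hsymm]; exact h.2.2.2⟩⟩
        loopless := ⟨fun _ h => h.1 rfl⟩ }
    let C : α → Finset α := fun u => A.filter (fun x => Gs.Reachable u x)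
    have memC : ∀ u x, x ∈ C u ↔ x ∈ A ∧ Gs.Reachable u x := fun u x => Finset.mem_filter
    have selfC : ∀ u ∈ A, u ∈ C u := fun u hu => (memC u u).2 ⟨hu, SimpleGraph.Reachable.refl u⟩
    have Ceq : ∀ u v, v ∈ C u → C v = C u := by
      intro u v hv
      have h := ((memC u v).1 hv).2
      ext x
      rw [memC, memC]
      exact ⟨fun hx => ⟨hx.1, h.trans hx.2⟩, fun hx => ⟨hx.1, h.symm.trans hx.2⟩⟩
    have CsubA : ∀ u, C u ⊆ A := fun u => Finset.filter_subset _ _
    -- between different components colour is not s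
    have ne_s : ∀ u ∈ A, ∀ v ∈ A, v ∉ C u → e u v ≠ s := by
      intro u hu v hv hvC hes
      apply hvC
      refine (memC u v).2 ⟨hv, ?_⟩
      have huv : u ≠ v := by
        rintro rfl
        exact hvC (selfC u hu)
      exact SimpleGraph.Adj.reachable (show Gs.Adj u v from ⟨huv, hu, hv, hes⟩)
    -- module property, one step
    have mod1 : ∀ u ∈ A, ∀ v ∈ A, v ∉ C u → ∀ v', Gs.Adj v v' → e u v = e u v' := by
      intro u hu v hv hvC v' hadj
      have hv' : v' ∈ A := hadj.2.2.1
      have hv'C : v' ∉ C u := by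
        intro h
        apply hvC
        exact (memC u v).2 ⟨hv, ((memC u v').1 h).2.trans hadj.symm.reachable⟩
      have huv : u ≠ v := by
        rintro rfl
        exact hvC (selfC u hu)
      have huv' : u ≠ v' := by
        rintro rfl
        exact hv'C (selfC u hu)
      by_contra hne
      refine hG u hu v hv v' hv' huv hadj.1 huv' ⟨?_, ?_, hne⟩
      · rw [hadj.2.2.2]; exact ne_s u hu v hv hvC
      · rw [hadj.2.2.2]; exact (ne_s u hu v' hv' hv'C).symm
    have mod2 : ∀ u ∈ A, ∀ v ∈ A, v ∉ C u → ∀ v', Gs.Reachable v v' → e u v = e u v' := by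
      intro u hu v hv hvC v' hr
      obtain ⟨p⟩ := hr
      induction p with
      | nil => rfl
      | @cons a b c hab p ihp =>
        have hb : b ∈ A := hab.2.2.1
        have hbC : b ∉ C u := by
          intro h
          apply hvC
          exact (memC u a).2 ⟨hv, ((memC u b).1 h).2.trans hab.symm.reachable⟩
        rw [mod1 u hu a hv hvC b hab]
        exact ihp hb hbC
    have modl : ∀ u ∈ A, ∀ v ∈ A, v ∉ C u → ∀ u' ∈ C u, ∀ v' ∈ C v, e u v = e u' v' := by
      intro u hu v hv hvC u' hu' v' hv'
      have h1 : e u v = e u v' := mod2 u hu v hv hvC v' ((memC v v').1 hv').2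
      have hu'A := CsubA u hu'
      have hv'A := CsubA v hv'
      have huv' : u ∉ C v' := by
        intro h
        rw [Ceq v v' hv'] at h
        apply hvC
        rw [Ceq v u h]
        exact selfC v hv
      have h2 : e v' u = e v' u' := mod2 v' hv'A u hu huv' u' ((memC u u').1 hu').2
      rw [h1, hsymm u v', h2, hsymm]
    have symmC : ∀ u ∈ A, ∀ v ∈ A, v ∈ C u → u ∈ C v := by
      intro u hu v hv h
      rw [Ceq u v h]
      exact selfC u hu
    -- components are proper when of size at least 2
    have Clt : ∀ u ∈ A, 2 ≤ (C u).card → (C u).card < A.card := by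
      intro u hu h2
      apply Finset.card_lt_card
      refine Finset.ssubset_iff_subset_ne.2 ⟨CsubA u, ?_⟩
      intro heq
      have hv0C : v0 ∈ C u := by rw [heq]; exact hv0
      -- v0 is isolated in Gs
      have hiso : ∀ x, Gs.Reachable v0 x → x = v0 := by
        intro x hx
        obtain ⟨p⟩ := hx
        cases p with
        | nil => rfl
        | cons hab p =>
          exact absurd hab.2.2.2 (hs _ hab.2.2.1 hab.1.symm)
      have hcard : (C v0).card ≤ 1 := by
        apply Finset.card_le_one.2
        intro a ha b hb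
        rw [hiso a ((memC v0 a).1 ha).2, hiso b ((memC v0 b).1 hb).2]
      rw [Ceq u v0 hv0C] at hcard
      omega
    -- colours free around a component
    let SC : Finset α → Set κ := fun D =>
      {t | t ∈ S ∧ t ≠ s ∧ ∀ x ∈ D, ∀ y ∈ A, y ∉ D → e x y ≠ t}
    have IH : ∀ D : Finset α, (2 ≤ D.card ∧ ∃ u ∈ A, D = C u) →
        ∃ t : κ, ∃ e' : α → α → κ, t ∈ SC D ∧ Good H' e D (SC D) t e' := by
      rintro D ⟨h2, u, hu, rfl⟩
      have hlt := Clt u hu h2
      have hmiss' : Miss e (C u) (SC (C u)) := by
        intro x hx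
        have hxA := CsubA u hx
        obtain ⟨t, htS, ht⟩ := hmiss x hxA
        refine ⟨t, ⟨htS, ?_, ?_⟩, fun y hy hne => ht y (CsubA u hy) hne⟩
        · -- x sees s
          rintro rfl
          -- find another element in the component
          obtain ⟨a, ha, b, hb, hab⟩ := Finset.one_lt_card.1 (show 1 < (C u).card by omega)
          have : ∃ y ∈ C u, y ≠ x := by
            by_cases h : a = x
            · exact ⟨b, hb, fun h' => hab (h.trans h'.symm)⟩
            · exact ⟨a, ha, h⟩
          obtain ⟨y, hy, hyx⟩ := this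
          have hr : Gs.Reachable x y :=
            (((memC u x).1 hx).2.symm).trans ((memC u y).1 hy).2
          obtain ⟨p⟩ := hr
          cases p with
          | nil => exact hyx rfl
          | cons hab p => exact ht _ hab.2.2.1 hab.1.symm hab.2.2.2
        · intro x' hx' y hy hyC
          have hxy : y ∉ C x := by
            rw [Ceq u x hx]; exact hyC
          have hx'x : x' ∈ C x := by
            rw [Ceq u x hx]; exact hx'
          rw [← modl x hxA y hy hxy x' hx'x y (selfC y hy)]
          apply ht y hy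
          rintro rfl
          exact hxy (selfC _ hy)
      have hG' : Gallai e (C u) := by
        intro x hx y hy z hz
        exact hG x (CsubA u hx) y (CsubA u hy) z (CsubA u hz)
      obtain ⟨t, ht, e', he'⟩ := ih (C u).card (hAn ▸ hlt) (C u) rfl ⟨u, selfC u hu⟩ e hsymm hG'
        (SC (C u)) hmiss'
      exact ⟨t, e', ht, he'⟩
    have : Nonempty κ := ⟨s⟩
    choose! t0 e0 ht0 he0 using IH
    -- the new colouring
    let e2 : α → α → κ := fun u v =>
      if u ∈ A ∧ v ∈ A ∧ v ∈ C u ∧ u ≠ v then
        (if e0 (C u) u v = s then t0 (C u) else e0 (C u) u v)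
      else e u v
    have e2in : ∀ u ∈ A, ∀ v ∈ A, v ∈ C u → u ≠ v →
        e2 u v = (if e0 (C u) u v = s then t0 (C u) else e0 (C u) u v) := by
      intro u hu v hv hvC hne
      exact if_pos ⟨hu, hv, hvC, hne⟩
    have e2out : ∀ u v, v ∉ C u → e2 u v = e u v := by
      intro u v hvC
      exact if_neg (fun h => hvC h.2.2.1)
    have card2 : ∀ u ∈ A, ∀ v, v ∈ C u → u ≠ v → 2 ≤ (C u).card := by
      intro u hu v hv hne
      exact Finset.one_lt_card.2 ⟨u, selfC u hu, v, hv, hne⟩
    have P : ∀ u ∈ A, ∀ v, v ∈ C u → u ≠ v → (2 ≤ (C u).card ∧ ∃ u' ∈ A, C u = C u') :=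
      fun u hu v hv hne => ⟨card2 u hu v hv hne, u, hu, rfl⟩
    have e2ne : ∀ u ∈ A, ∀ v ∈ A, u ≠ v → e2 u v ≠ s := by
      intro u hu v hv hne
      by_cases hvC : v ∈ C u
      · rw [e2in u hu v hv hvC hne]
        split_ifs with h
        · exact (ht0 (C u) (P u hu v hvC hne)).2.1
        · exact h
      · rw [e2out u v hvC]
        exact ne_s u hu v hv hvC
    have e2symm : ∀ u v, e2 u v = e2 v u := by
      intro u v
      by_cases h : u ∈ A ∧ v ∈ A ∧ v ∈ C u ∧ u ≠ v
      · obtain ⟨hu, hv, hvC, hne⟩ := h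
        have huC := symmC u hu v hv hvC
        rw [e2in u hu v hv hvC hne, e2in v hv u hu huC hne.symm, Ceq u v hvC,
          (he0 (C u) (P u hu v hvC hne)).symm u v]
      · have h' : ¬ (v ∈ A ∧ u ∈ A ∧ u ∈ C v ∧ v ≠ u) := by
          rintro ⟨hv, hu, huC, hne⟩
          exact h ⟨hu, hv, symmC v hv u hu huC, hne.symm⟩
        show (if _ then _ else _) = (if _ then _ else _)
        rw [if_neg h, if_neg h', hsymm]
    refine ⟨s, hsS, e2, ⟨e2symm, ?_, e2ne, ?_, ?_⟩⟩
    · -- Gallai
      intro x hx y hy z hz hxy hyz hxz hrb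
      by_cases h1 : y ∈ C x
      · by_cases h2 : z ∈ C x
        · -- all in the same component
          have hyx : C y = C x := Ceq x y h1
          have hzy : z ∈ C y := by rw [hyx]; exact h2
          rw [e2in x hx y hy h1 hxy, e2in y hy z hz hzy hyz, e2in x hx z hz h2 hxz, hyx] at hrb
          refine (he0 (C x) (P x hx y h1 hxy)).gallai x (selfC x hx) y h1 z h2 hxy hyz hxz
            ⟨?_, ?_, ?_⟩
          · intro h; apply hrb.1; rw [h]
          · intro h; apply hrb.2.1; rw [h]
          · intro h; apply hrb.2.2; rw [h]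
        · -- x,y together, z apart
          have h3 : z ∉ C y := by rw [Ceq x y h1]; exact h2
          apply hrb.2.1
          rw [e2out y z h3, e2out x z h2]
          exact (modl x hx z hz h2 y h1 z (selfC z hz)).symm
      · by_cases h2 : z ∈ C x
        · -- x,z together, y apart
          have h3 : y ∉ C z := by rw [Ceq x z h2]; exact h1
          have h4 : z ∉ C y := fun h => h3 (symmC y hy z hz h)
          apply hrb.1
          rw [e2out x y h1, e2out y z h4, hsymm y z]
          exact modl x hx y hy h1 z h2 y (selfC y hy)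
        · by_cases h3 : z ∈ C y
          · apply hrb.2.2
            rw [e2out x y h1, e2out x z h2]
            exact modl x hx y hy h1 x (selfC x hx) z h3
          · rw [e2out x y h1, e2out y z h3, e2out x z h2] at hrb
            exact hG x hx y hy z hz hxy hyz hxz hrb
    · -- colours outside S
      intro i hi
      have hiSC : ∀ D, i ∉ SC D := fun D h => hi h.1
      have hf : ∀ D : Finset α, ∃ f : α → α, (2 ≤ D.card ∧ ∃ u ∈ A, D = C u) →
          ((∀ v ∈ D, f v ∈ D) ∧
          ∀ u ∈ D, ∀ v ∈ D, u ≠ v → e0 D u v = i → f u ≠ f v ∧ e (f u) (f v) = i) := by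
        intro D
        by_cases hD : (2 ≤ D.card ∧ ∃ u ∈ A, D = C u)
        · obtain ⟨f, hf⟩ := (he0 D hD).homOut i (hiSC D)
          exact ⟨f, fun _ => hf⟩
        · exact ⟨id, fun h => absurd h hD⟩
      choose f hf using hf
      let g : α → α := fun u => if 2 ≤ (C u).card then f (C u) u else u
      have gin : ∀ u ∈ A, g u ∈ C u := by
        intro u hu
        by_cases h2 : 2 ≤ (C u).card
        · have : g u = f (C u) u := if_pos h2
          rw [this]
          exact (hf (C u) ⟨h2, u, hu, rfl⟩).1 u (selfC u hu)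
        · have : g u = u := if_neg h2
          rw [this]
          exact selfC u hu
      refine ⟨g, fun v hv => CsubA v (gin v hv), ?_⟩
      intro u hu v hv hne heq
      by_cases hvC : v ∈ C u
      · have h2 := card2 u hu v hvC hne
        have hvu := Ceq u v hvC
        have gu : g u = f (C u) u := if_pos h2
        have gv : g v = f (C u) v := by
          have : g v = f (C v) v := if_pos (by rw [hvu]; exact h2)
          rw [this, hvu]
        rw [gu, gv]
        apply (hf (C u) (P u hu v hvC hne)).2 u (selfC u hu) v hvC hne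
        rw [e2in u hu v hv hvC hne] at heq
        split_ifs at heq with hcase
        · exact absurd (heq ▸ (ht0 (C u) (P u hu v hvC hne))) (hiSC (C u))
        · exact heq
      · rw [e2out u v hvC] at heq
        have hgu := gin u hu
        have hgv := gin v hv
        constructor
        · intro h
          rw [h] at hgu
          apply hvC
          rw [← Ceq u (g v) hgu, Ceq v (g v) hgv]
          exact selfC v hv
        · rw [← modl u hu v hv hvC (g u) hgu (g v) hgv]
          exact heq
    · -- colours in S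
      rintro i hiS ⟨φ, hφA, hφ⟩
      by_cases hcase : ∃ w0, 2 ≤ (C (φ w0)).card ∧ i ∈ SC (C (φ w0))
      · obtain ⟨w0, h2, hiC⟩ := hcase
        set D := C (φ w0) with hD
        have hstay : ∀ w, φ w ∈ D := by
          intro w
          obtain ⟨p⟩ := hconn.preconnected w0 w
          have key : ∀ {a b : W}, H'.Walk a b → φ a ∈ D → φ b ∈ D := by
            intro a b p
            induction p with
            | nil => exact id
            | @cons a b c hab p ihp =>
              intro ha
              apply ihp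
              by_contra hb
              have hCa : C (φ a) = D := Ceq _ _ ha
              have := hφ a b hab
              rw [e2out (φ a) (φ b) (by rw [hCa]; exact hb)] at this
              exact hiC.2.2 (φ a) ha (φ b) (hφA b) hb this.2
          exact key p (selfC _ (hφA w0))
        have hPD : (2 ≤ D.card ∧ ∃ u ∈ A, D = C u) := ⟨h2, φ w0, hφA w0, rfl⟩
        have hgood := he0 D hPD
        have htD := ht0 D hPD
        have hCw : ∀ w, C (φ w) = D := fun w => Ceq _ _ (hstay w)
        have hval : ∀ x y, H'.Adj x y → φ x ≠ φ y ∧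
            (if e0 D (φ x) (φ y) = s then t0 D else e0 D (φ x) (φ y)) = i := by
          intro x y hxy
          obtain ⟨h1, h2'⟩ := hφ x y hxy
          rw [e2in (φ x) (hφA x) (φ y) (hφA y) (by rw [hCw x]; exact hstay y) h1, hCw x] at h2'
          exact ⟨h1, h2'⟩
        by_cases hit : i = t0 D
        · -- all edges have colour s in e0 D
          have hs' : ∀ x y, H'.Adj x y → φ x ≠ φ y ∧ e0 D (φ x) (φ y) = s := by
            intro x y hxy
            obtain ⟨h1, h2'⟩ := hval x y hxy
            refine ⟨h1, ?_⟩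
            by_contra hne
            rw [if_neg hne, hit] at h2'
            exact hgood.avoid (φ x) (hstay x) (φ y) (hstay y) h1 h2'
          have hsSC : s ∉ SC D := fun h => h.2.1 rfl
          obtain ⟨f, hfD, hf⟩ := hgood.homOut s hsSC
          refine ⟨s, hsS, fun w => f (φ w), fun w => ?_, ?_⟩
          · exact CsubA _ (hfD _ (hstay w))
          · intro x y hxy
            obtain ⟨h1, h2'⟩ := hs' x y hxy
            exact hf (φ x) (hstay x) (φ y) (hstay y) h1 h2'
        · have hi' : HomIn H' (e0 D) D i := by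
            refine ⟨φ, hstay, ?_⟩
            intro x y hxy
            obtain ⟨h1, h2'⟩ := hval x y hxy
            refine ⟨h1, ?_⟩
            split_ifs at h2' with h
            · exact absurd h2'.symm hit
            · exact h2'
          obtain ⟨j, hj, ψ, hψD, hψ⟩ := hgood.homIn i hiC hi'
          exact ⟨j, hj.1, ψ, fun w => CsubA _ (hψD w), hψ⟩
      · push Not at hcase
        -- maps on the components
        have hf : ∀ D : Finset α, ∃ f : α → α,
            ((2 ≤ D.card ∧ ∃ u ∈ A, D = C u) ∧ i ∉ SC D) →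
            ((∀ v ∈ D, f v ∈ D) ∧
            ∀ u ∈ D, ∀ v ∈ D, u ≠ v → e0 D u v = i → f u ≠ f v ∧ e (f u) (f v) = i) := by
          intro D
          by_cases hD : ((2 ≤ D.card ∧ ∃ u ∈ A, D = C u) ∧ i ∉ SC D)
          · obtain ⟨f, hf⟩ := (he0 D hD.1).homOut i hD.2
            exact ⟨f, fun _ => hf⟩
          · exact ⟨id, fun h => absurd h hD⟩
        choose f hf using hf
        let g : α → α := fun u => if 2 ≤ (C u).card then f (C u) u else u
        have gin : ∀ w, g (φ w) ∈ C (φ w) := by
          intro w
          by_cases h2 : 2 ≤ (C (φ w)).card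
          · have : g (φ w) = f (C (φ w)) (φ w) := if_pos h2
            rw [this]
            exact (hf (C (φ w)) ⟨⟨h2, φ w, hφA w, rfl⟩, hcase w h2⟩).1 _ (selfC _ (hφA w))
          · have : g (φ w) = φ w := if_neg h2
            rw [this]
            exact selfC _ (hφA w)
        refine ⟨i, hiS, fun w => g (φ w), fun w => CsubA _ (gin w), ?_⟩
        intro x y hxy
        obtain ⟨hne, heq⟩ := hφ x y hxy
        by_cases hyC : φ y ∈ C (φ x)
        · have h2 := card2 _ (hφA x) _ hyC hne
          have hyx := Ceq _ _ hyC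
          have gu : g (φ x) = f (C (φ x)) (φ x) := if_pos h2
          have gv : g (φ y) = f (C (φ x)) (φ y) := by
            have : g (φ y) = f (C (φ y)) (φ y) := if_pos (by rw [hyx]; exact h2)
            rw [this, hyx]
          show g (φ x) ≠ g (φ y) ∧ e (g (φ x)) (g (φ y)) = i
          rw [gu, gv]
          have hPD : (2 ≤ (C (φ x)).card ∧ ∃ u ∈ A, C (φ x) = C u) := ⟨h2, _, hφA x, rfl⟩
          apply (hf (C (φ x)) ⟨hPD, hcase x h2⟩).2 _ (selfC _ (hφA x)) _ hyC hne
          rw [e2in _ (hφA x) _ (hφA y) hyC hne] at heq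
          split_ifs at heq with hc
          · exact absurd (heq ▸ ht0 (C (φ x)) hPD) (hcase x h2)
          · exact heq
        · rw [e2out _ _ hyC] at heq
          have hgu := gin x
          have hgv := gin y
          constructor
          · intro h
            have h' : g (φ x) = g (φ y) := h
            rw [h'] at hgu
            apply hyC
            rw [← Ceq _ _ hgu, Ceq _ _ hgv]
            exact selfC _ (hφA y)
          · show e (g (φ x)) (g (φ y)) = i
            rw [← modl _ (hφA x) _ (hφA y) hyC _ hgu _ hgv]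
            exact heq

end Core

section Ramsey

theorem ramsey_seq {α κ : Type} [DecidableEq α] [Fintype κ] [DecidableEq κ] (L : ℕ) :
    ∃ n : ℕ, ∀ A : Finset α, n ≤ A.card → ∀ e : α → α → κ,
      ∃ (x : Fin L → α) (c : Fin L → κ), Function.Injective x ∧ (∀ i, x i ∈ A) ∧
        ∀ i j, i < j → e (x i) (x j) = c i := by
  induction L with
  | zero =>
    exact ⟨0, fun A _ e => ⟨fun i => i.elim0, fun i => i.elim0, fun i => i.elim0,
      fun i => i.elim0, fun i => i.elim0⟩⟩
  | succ L ih =>
    obtain ⟨n, hn⟩ := ih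
    refine ⟨Fintype.card κ * n + 1, fun A hA e => ?_⟩
    have hne : A.Nonempty := by
      rw [← Finset.card_pos]; omega
    obtain ⟨a, ha⟩ := hne
    have : Nonempty κ := ⟨e a a⟩
    have hcard : (A.erase a).card = A.card - 1 := Finset.card_erase_of_mem ha
    have hpig : ∃ t ∈ (Finset.univ : Finset κ),
        n ≤ ((A.erase a).filter (fun x => e a x = t)).card := by
      apply Finset.exists_le_card_fiber_of_mul_le_card_of_maps_to
      · intro x _
        exact Finset.mem_univ _
      · exact Finset.univ_nonempty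
      · rw [hcard, Finset.card_univ]
        omega
    obtain ⟨t, _, ht⟩ := hpig
    obtain ⟨x, c, hx, hxA, hxc⟩ := hn _ ht e
    have hxmem : ∀ i, x i ∈ A ∧ x i ≠ a ∧ e a (x i) = t := by
      intro i
      have := hxA i
      rw [Finset.mem_filter, Finset.mem_erase] at this
      exact ⟨this.1.2, this.1.1, this.2⟩
    refine ⟨Fin.cons a x, Fin.cons t c, ?_, ?_, ?_⟩
    · intro i j hij
      induction i using Fin.cases with
      | zero =>
        induction j using Fin.cases with
        | zero => rfl
        | succ j' =>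
          rw [Fin.cons_zero, Fin.cons_succ] at hij
          exact absurd hij.symm (hxmem j').2.1
      | succ i' =>
        induction j using Fin.cases with
        | zero =>
          rw [Fin.cons_zero, Fin.cons_succ] at hij
          exact absurd hij (hxmem i').2.1
        | succ j' =>
          rw [Fin.cons_succ, Fin.cons_succ] at hij
          rw [hx hij]
    · intro i
      refine Fin.cases ?_ ?_ i
      · rw [Fin.cons_zero]; exact ha
      · intro i'
        rw [Fin.cons_succ]; exact (hxmem i').1
    · intro i j hij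
      induction i using Fin.cases with
      | zero =>
        induction j using Fin.cases with
        | zero => exact absurd hij (lt_irrefl _)
        | succ j' =>
          rw [Fin.cons_zero, Fin.cons_succ, Fin.cons_zero]
          exact (hxmem j').2.2
      | succ i' =>
        induction j using Fin.cases with
        | zero => exact absurd hij (Fin.not_lt_zero _)
        | succ j' =>
          rw [Fin.cons_succ, Fin.cons_succ, Fin.cons_succ]
          exact hxc i' j' (Fin.succ_lt_succ_iff.1 hij)

theorem grSet_nonempty {V : Type} [Finite V] (k : ℕ) (H : SimpleGraph V) :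
    (GRSet k H).Nonempty := by
  classical
  have := Fintype.ofFinite V
  obtain ⟨n, hn⟩ := ramsey_seq (α := ℕ) (κ := Fin k) (k * Fintype.card V)
  refine ⟨max n 1, ?_⟩
  intro e
  right
  have hpos : 0 < max n 1 := by omega
  have hk : 0 < k := by
    have z : Fin (max n 1) := ⟨0, hpos⟩
    exact Fin.pos (e s(z, z))
  -- transfer the colouring to ℕ
  let emb : ℕ → Fin (max n 1) := fun a => if h : a < max n 1 then ⟨a, h⟩ else ⟨0, hpos⟩
  obtain ⟨x, c, hx, hxA, hxc⟩ := hn (Finset.range (max n 1)) (by rw [Finset.card_range]; omega)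
    (fun a b => e s(emb a, emb b))
  have hemb : ∀ i j, emb (x i) = emb (x j) → i = j := by
    intro i j h
    have hi := Finset.mem_range.1 (hxA i)
    have hj := Finset.mem_range.1 (hxA j)
    have h1 : emb (x i) = ⟨x i, hi⟩ := dif_pos hi
    have h2 : emb (x j) = ⟨x j, hj⟩ := dif_pos hj
    rw [h1, h2, Fin.mk.injEq] at h
    exact hx h
  have hpig : ∃ t ∈ (Finset.univ : Finset (Fin k)),
      Fintype.card V ≤ ((Finset.univ : Finset (Fin (k * Fintype.card V))).filter
        (fun i => c i = t)).card := by
    apply Finset.exists_le_card_fiber_of_mul_le_card_of_maps_to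
    · intro x _
      exact Finset.mem_univ _
    · exact ⟨⟨0, hk⟩, Finset.mem_univ _⟩
    · rw [Finset.card_univ, Finset.card_univ, Fintype.card_fin, Fintype.card_fin]
  obtain ⟨t, _, ht⟩ := hpig
  set T := ((Finset.univ : Finset (Fin (k * Fintype.card V))).filter (fun i => c i = t)) with hT
  have hle : Fintype.card V ≤ Fintype.card T := by
    rw [Fintype.card_coe]; exact ht
  obtain ⟨f⟩ := Function.Embedding.nonempty_of_card_le hle
  have hcT : ∀ i ∈ T, c i = t := fun i hi => (Finset.mem_filter.1 hi).2
  refine ⟨t, ⟨⟨fun v => emb (x (f v).1), ?_⟩⟩⟩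
  intro u v huv
  have hne : u ≠ v := huv.ne
  have hfne : (f u).1 ≠ (f v).1 := fun h => hne (f.injective (Subtype.ext h))
  refine ⟨fun h => hfne (hemb _ _ h), ?_⟩
  rcases lt_or_gt_of_ne hfne with h | h
  · rw [hxc _ _ h]; exact hcT _ (f u).2
  · rw [Sym2.eq_swap, hxc _ _ h]; exact hcT _ (f v).2

end Ramsey

theorem grSet_pos {V : Type} [Nonempty V] (k : ℕ) (H : SimpleGraph V) {n : ℕ}
    (hn : n ∈ GRSet k H) : 1 ≤ n := by
  rcases Nat.eq_zero_or_pos n with rfl | h
  · exfalso
    have e : Sym2 (Fin 0) → Fin k := fun z => (Sym2.lift ⟨fun x _ => x.elim0, fun x _ => x.elim0⟩ z)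
    rcases hn e with ⟨x, _⟩ | ⟨i, ⟨f⟩⟩
    · exact x.elim0
    · obtain ⟨v⟩ := (inferInstance : Nonempty V)
      exact (f v).elim0
  · exact h

/-- `N` is good for the star number iff it is good for the Gallai-Ramsey number with one colour
less. -/
theorem sets_eq {V : Type} (k : ℕ) (hk : 1 ≤ k) (H : SimpleGraph V) {W : Type}
    (H' : SimpleGraph W) (hconn : H'.Connected) (h1 : Nonempty (H →g H'))
    (h2 : Nonempty (H' →g H)) : GRStarSet (k + 1) H = GRSet k H := by
  have hV : Nonempty V := by
    obtain ⟨f⟩ := h2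
    obtain ⟨w⟩ := hconn.nonempty
    exact ⟨f w⟩
  ext N
  constructor
  · rintro ⟨hN, hstar⟩ e
    rcases hstar (fun _ => Fin.last k) (fun z => (e z).castSucc) with h | h | h
    · left
      obtain ⟨x, y, z, hxy, hyz, hxz, ha, hb, hc⟩ := h
      exact ⟨x, y, z, hxy, hyz, hxz, fun h => ha (congrArg _ h), fun h => hb (congrArg _ h),
        fun h => hc (congrArg _ h)⟩
    · right
      obtain ⟨i, ⟨f⟩⟩ := h
      by_cases hi : i = Fin.last k
      · refine ⟨⟨0, hk⟩, ⟨⟨f, ?_⟩⟩⟩
        intro u v huv
        have h := (f.map_rel huv).2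
        exact absurd (h.trans hi) (Fin.castSucc_lt_last _).ne
      · obtain ⟨j, rfl⟩ := Fin.exists_castSucc_eq.2 hi
        refine ⟨j, ⟨⟨f, ?_⟩⟩⟩
        intro u v huv
        have h := f.map_rel huv
        exact ⟨h.1, Fin.castSucc_injective _ h.2⟩
    · exfalso
      obtain ⟨i, j, _, h | h⟩ := h
      · exact (Fin.castSucc_lt_last _).ne h
      · exact (Fin.castSucc_lt_last _).ne h
  · intro hN
    refine ⟨grSet_pos k H hN, ?_⟩
    intro c e
    by_contra hcon
    push Not at hcon
    obtain ⟨hR, hM, hE⟩ := hcon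
    have hNpos := grSet_pos k H hN
    have hE' : ∀ u v : Fin N, u ≠ v → e s(v, u) ≠ c v := by
      intro u v hne
      rcases lt_or_gt_of_ne hne with h | h
      · rw [Sym2.eq_swap]; exact (hE u v h).2
      · exact (hE v u h).1
    obtain ⟨s0, _, e', he'⟩ := main_lemma (α := Fin N) (κ := Fin (k + 1)) H' hconn _
      Finset.univ rfl ⟨⟨0, hNpos⟩, Finset.mem_univ _⟩ (fun x y => e s(x, y))
      (fun u v => by rw [Sym2.eq_swap])
      (by
        intro x _ y _ z _ hxy hyz hxz h
        exact hR ⟨x, y, z, hxy, hyz, hxz, h.1, h.2.1, h.2.2⟩)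
      Set.univ
      (by
        intro v _
        exact ⟨c v, Set.mem_univ _, fun u _ hne => hE' u v hne⟩)
    -- convert to a colouring with k colours
    have hret : ∀ x : Fin (k + 1), x ≠ s0 → ∃ y : Fin k, s0.succAbove y = x := fun x hx =>
      Fin.exists_succAbove_eq hx
    classical
    let r : Fin (k + 1) → Fin k := fun x => if h : x ≠ s0 then (hret x h).choose else ⟨0, hk⟩
    have hr : ∀ x, x ≠ s0 → s0.succAbove (r x) = x := by
      intro x hx
      have : r x = (hret x hx).choose := dif_pos hx
      rw [this]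
      exact (hret x hx).choose_spec
    let e'' : Sym2 (Fin N) → Fin k := Sym2.lift ⟨fun x y => r (e' x y), fun x y =>
      congrArg r (he'.symm x y)⟩
    have he'' : ∀ x y, e'' s(x, y) = r (e' x y) := fun x y => rfl
    rcases hN e'' with h | h
    · obtain ⟨x, y, z, hxy, hyz, hxz, ha, hb, hc⟩ := h
      rw [he'', he''] at ha hb hc
      exact he'.gallai x (Finset.mem_univ _) y (Finset.mem_univ _) z (Finset.mem_univ _) hxy hyz hxz
        ⟨fun h => ha (congrArg r h), fun h => hb (congrArg r h), fun h => hc (congrArg r h)⟩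
    · obtain ⟨j, ⟨f⟩⟩ := h
      obtain ⟨g⟩ := h2
      have hin : HomIn H' e' Finset.univ (s0.succAbove j) := by
        refine ⟨fun w => f (g w), fun _ => Finset.mem_univ _, ?_⟩
        intro x y hxy
        have h := f.map_rel (g.map_rel hxy)
        refine ⟨h.1, ?_⟩
        have h' : r (e' (f (g x)) (f (g y))) = j := h.2
        have h3 := hr (e' (f (g x)) (f (g y)))
          (he'.avoid _ (Finset.mem_univ _) _ (Finset.mem_univ _) h.1)
        exact h3.symm.trans (congrArg _ h')
      obtain ⟨i, _, ψ, _, hψ⟩ := he'.homIn _ (Set.mem_univ _) hin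
      obtain ⟨g'⟩ := h1
      apply hM
      refine ⟨i, ⟨⟨fun v => ψ (g' v), ?_⟩⟩⟩
      intro u v huv
      exact hψ _ _ (g'.map_rel huv)

/-- `GR_k(ℋ)`: the least `n` such that every Gallai-`k`-colouring of `K_n` contains a monochromatic
homomorphic copy of `H`. -/
noncomputable def GR {V : Type} (k : ℕ) (H : SimpleGraph V) : ℕ := sInf (GRSet k H)

/-- `GR*_k(H)`: the least `N ≥ 1` with the property of `GRStarSet`. -/
noncomputable def GRStar {V : Type} (k : ℕ) (H : SimpleGraph V) : ℕ := sInf (GRStarSet k H)

/-- For every `k ≥ 2` and every finite graph `H` that is homomorphically equivalent to a connected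
graph (in particular for every connected finite graph), `GR*_k(H) = GR_{k-1}(ℋ)`. Both numbers
exist, i.e. they are the least elements of the nonempty sets that define them. -/
theorem result (k : ℕ) (hk : 2 ≤ k) {V : Type} [Finite V] (H : SimpleGraph V)
    (hH : ∃ (W : Type) (H' : SimpleGraph W), H'.Connected ∧ Nonempty (H →g H') ∧
      Nonempty (H' →g H)) :
    GRStar k H = GR (k - 1) H ∧ IsLeast (GRStarSet k H) (GRStar k H) ∧
      IsLeast (GRSet (k - 1) H) (GR (k - 1) H) := by
  obtain ⟨W, H', hconn, h1, h2⟩ := hH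
  obtain ⟨k, rfl⟩ : ∃ m, k = m + 1 := ⟨k - 1, by omega⟩
  have hs : GRStarSet (k + 1) H = GRSet (k + 1 - 1) H := by
    rw [Nat.add_sub_cancel]
    exact sets_eq k (by omega) H H' hconn h1 h2
  have hne : (GRSet (k + 1 - 1) H).Nonempty := grSet_nonempty _ H
  have hl : IsLeast (GRSet (k + 1 - 1) H) (sInf (GRSet (k + 1 - 1) H)) :=
    ⟨Nat.sInf_mem hne, fun m hm => Nat.sInf_le hm⟩
  refine ⟨?_, ?_, hl⟩
  · unfold GRStar GR; rw [hs]
  · unfold GRStar; rw [hs]; exact hl

end Pool.Agent.Results.MP_114a18_co.ConnectedCore
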