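import Pool.Agent.GallaiRamsey.Assembly
import Pool.Agent.GallaiRamsey.LogDet
import Pool.Agent.GallaiRamsey.KMat
import Pool.Agent.Results.MP_114a18_co.ConnectedCore

set_option autoImplicit false

namespace Pool.Agent.Results.MP_114a18_co.DisconnectedThree

open Pool.Agent.GallaiRamsey

/-- The graph of the edges of colour `i` of an edge-colouring `e` of `K_n`. -/
def colourGraph {n k : ℕ} (e : Sym2 (Fin n) → Fin k) (i : Fin k) : SimpleGraph (Fin n) where
  Adj x y := x ≠ y ∧ e s(x, y) = i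
  symm := ⟨fun x y h => ⟨h.1.symm, by rw [Sym2.eq_swap]; exact h.2⟩⟩
  loopless := ⟨fun _ h => h.1 rfl⟩

/-- The edge-colouring `e` of `K_n` has a rainbow triangle. -/
def HasRainbowTriangle {n k : ℕ} (e : Sym2 (Fin n) → Fin k) : Prop :=
  ∃ x y z : Fin n, x ≠ y ∧ y ≠ z ∧ x ≠ z ∧
    e s(x, y) ≠ e s(y, z) ∧ e s(y, z) ≠ e s(x, z) ∧ e s(x, y) ≠ e s(x, z)

/-- The edge-colouring `e` of `K_n` contains a monochromatic homomorphic copy of `H`: for some
colour `i` there is a homomorphism from `H` to the graph of the edges of colour `i`. -/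
def HasMonoHomCopy {V : Type} {n k : ℕ} (H : SimpleGraph V) (e : Sym2 (Fin n) → Fin k) : Prop :=
  ∃ i : Fin k, Nonempty (H →g colourGraph e i)

/-- The set of all `n` such that every edge-colouring of `K_n` with `k` colours and without rainbow
triangle contains a monochromatic homomorphic copy of `H`. -/
def GRSet {V : Type} (k : ℕ) (H : SimpleGraph V) : Set ℕ :=
  {n | ∀ e : Sym2 (Fin n) → Fin k, HasRainbowTriangle e ∨ HasMonoHomCopy H e}

/-- The set of all `N ≥ 1` such that every colouring with `k` colours of the vertices (`c`) and of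
the edges (`e`) of `K_N` has a rainbow triangle, or a monochromatic homomorphic copy of `H` (both
in the colouring of the edges), or an edge with the same colour as one of its endpoints. -/
def GRStarSet {V : Type} (k : ℕ) (H : SimpleGraph V) : Set ℕ :=
  {N | 1 ≤ N ∧ ∀ (c : Fin N → Fin k) (e : Sym2 (Fin N) → Fin k),
    HasRainbowTriangle e ∨ HasMonoHomCopy H e ∨
      ∃ i j : Fin N, i < j ∧ (e s(i, j) = c i ∨ e s(i, j) = c j)}

/-- `GR_k(ℋ)`: the least `n` such that every Gallai-`k`-colouring of `K_n` contains a monochromatic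
homomorphic copy of `H`. -/
noncomputable def GR {V : Type} (k : ℕ) (H : SimpleGraph V) : ℕ := sInf (GRSet k H)

/-- `GR*_k(H)`: the least `N ≥ 1` with the property of `GRStarSet`. -/
noncomputable def GRStar {V : Type} (k : ℕ) (H : SimpleGraph V) : ℕ := sInf (GRStarSet k H)

/-- the members of the family of `F₂` -/
def Small {V : Type} (G : SimpleGraph V) : Prop :=
  (∀ I : Finset V, G.IsIndepSet I → I.card ≤ 5) ∨ ∃ S : Finset V, G.IsClique S ∧ S.card = 6

theorem Small.frac {G : SimpleGraph (Fin 28)} (h : Small G) : Frac ((11 : ℕ) / 2 : ℝ) G := by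
  rcases h with h | ⟨S, hS, hc⟩
  · refine Frac.of_indep 5 (by norm_num) h ?_
    rw [Fintype.card_fin]
    norm_num
  · refine Frac.of_clique S hS ?_
    rw [hc]
    norm_num

/-- graph homomorphisms from a disjoint sum -/
theorem sum_hom_iff {V W X : Type} (F : SimpleGraph V) (F' : SimpleGraph W) (G : SimpleGraph X) :
    Nonempty (F ⊕g F' →g G) ↔ Nonempty (F →g G) ∧ Nonempty (F' →g G) := by
  constructor
  · rintro ⟨f⟩
    exact ⟨⟨⟨fun v => f (Sum.inl v), fun h => f.map_rel (by simpa using h)⟩⟩,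
      ⟨⟨fun v => f (Sum.inr v), fun h => f.map_rel (by simpa using h)⟩⟩⟩
  · rintro ⟨⟨f⟩, ⟨f'⟩⟩
    refine ⟨⟨Sum.elim f f', ?_⟩⟩
    rintro (a | a) (b | b) h
    · exact f.map_rel (by simpa using h)
    · simp at h
    · simp at h
    · exact f'.map_rel (by simpa using h)

theorem main : ∃ (V : Type) (_ : Fintype V) (H : SimpleGraph V), ¬ H.Colorable 2 ∧
    28 ∈ GRSet 2 H ∧ ∀ N ∈ GRStarSet 3 H, 28 < N := by
  classical
  have hT1 : (1 : ℝ) < 52915 / 10000 := by norm_num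
  -- the first graph
  obtain ⟨V₁, i1, i2, F₁, hF₁, hF₁s⟩ := exists_common (n := 28)
    (fun V _ _ G => Cert (52915 / 10000 : ℝ) G)
    ⟨⊤, Cert.of_clique hT1 Finset.univ (by simp [SimpleGraph.IsClique, Set.Pairwise])
      (by rw [Finset.card_univ, Fintype.card_fin]; norm_num)⟩
    (fun V V' _ _ _ _ G G' h h' => Cert.tensor (by norm_num) h h')
  -- the second graph
  obtain ⟨V₂, j1, j2, F₂, hF₂, hF₂s⟩ := exists_common (n := 28)
    (fun V _ _ G => Frac ((11 : ℕ) / 2 : ℝ) G)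
    ⟨⊤, Frac.of_clique Finset.univ (by simp [SimpleGraph.IsClique, Set.Pairwise])
      (by rw [Finset.card_univ, Fintype.card_fin]; norm_num)⟩
    (fun V V' _ _ _ _ G G' h h' => Frac.tensor (by norm_num) h h')
  refine ⟨V₁ ⊕ V₂, inferInstance, F₁ ⊕g F₂, ?_, ?_, ?_⟩
  · -- not bipartite
    rintro ⟨c⟩
    have c₂ : F₂ →g (⊤ : SimpleGraph (Fin 2)) :=
      ⟨fun v => c (Sum.inr v), fun h => c.map_rel (by simpa using h)⟩
    obtain ⟨g, hg, hb⟩ := hF₂
    have hb' : Frac ((2 : ℕ) / 2 * 2 : ℝ) F₂ := ⟨g, hg, by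
      refine lt_trans ?_ hb
      norm_num⟩
    -- the two colour classes twice
    have hb'' : Frac (((4 : ℕ) : ℝ) / 2) F₂ := by
      convert hb' using 1
      norm_num
    refine hb''.noHom (H := (⊤ : SimpleGraph (Fin 2))) (fun i z => (i : ℕ) % 2 = (z : ℕ)) ?_ ?_ c₂
    · intro i z w hz hw hadj
      exact hadj.ne (Fin.ext (hz.symm.trans hw))
    · intro z
      have : ∀ z : Fin 2, ∃ i j : Fin 4, i ≠ j ∧ (i : ℕ) % 2 = (z : ℕ) ∧ (j : ℕ) % 2 = (z : ℕ) := by
        decide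
      exact this z
  · -- every 2-colouring of K_28
    intro e
    right
    set G : SimpleGraph (Fin 28) := colourGraph e 0 with hG
    have hGc : colourGraph e 1 = Gᶜ := by
      ext x y
      rw [SimpleGraph.compl_adj]
      show (x ≠ y ∧ e s(x, y) = 1) ↔ x ≠ y ∧ ¬ (x ≠ y ∧ e s(x, y) = 0)
      constructor
      · rintro ⟨h1, h2⟩
        refine ⟨h1, fun h => ?_⟩
        rw [h2] at h
        exact absurd h.2 (by decide)
      · rintro ⟨h1, h2⟩
        refine ⟨h1, ?_⟩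
        have h3 : e s(x, y) ≠ 0 := fun h => h2 ⟨h1, h⟩
        exact Fin.eq_one_of_ne_zero _ h3
    -- a clique with six vertices
    have hclique : ∀ G' : SimpleGraph (Fin 28), (∃ S : Finset (Fin 28), G'.IsClique S ∧ S.card = 6) →
        Nonempty (F₁ ⊕g F₂ →g G') := by
      rintro G' ⟨S, hS, hc⟩
      rw [sum_hom_iff]
      exact ⟨hF₁s G' (Cert.of_clique hT1 S hS (by rw [hc]; norm_num)),
        hF₂s G' (Small.frac (Or.inr ⟨S, hS, hc⟩))⟩
    by_cases h6 : ∃ S : Finset (Fin 28), G.IsClique S ∧ S.card = 6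
    · exact ⟨0, hclique G h6⟩
    by_cases h6c : ∃ S : Finset (Fin 28), Gᶜ.IsClique S ∧ S.card = 6
    · exact ⟨1, hGc ▸ hclique Gᶜ h6c⟩
    have hle : ∀ (G' : SimpleGraph (Fin 28)), (¬ ∃ S : Finset (Fin 28), G'ᶜ.IsClique S ∧ S.card = 6) →
        ∀ I : Finset (Fin 28), G'.IsIndepSet I → I.card ≤ 5 := by
      intro G' h I hI
      by_contra hcon
      push Not at hcon
      obtain ⟨S, hSI, hS⟩ := Finset.exists_subset_card_eq (show 6 ≤ I.card by omega)
      refine h ⟨S, ?_, hS⟩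
      intro x hx y hy hxy
      rw [SimpleGraph.compl_adj]
      exact ⟨hxy, hI (hSI hx) (hSI hy) hxy⟩
    have hs : Nonempty (F₂ →g G) := hF₂s G (Small.frac (Or.inl (hle G h6c)))
    have hsc : Nonempty (F₂ →g Gᶜ) := hF₂s Gᶜ (Small.frac (Or.inl (hle Gᶜ (by rwa [compl_compl]))))
    rcases cert_or hT1 G (by rw [Fintype.card_fin]; norm_num) with h | h
    · exact ⟨0, (sum_hom_iff _ _ _).2 ⟨hF₁s G h, hs⟩⟩
    · refine ⟨1, ?_⟩
      rw [hGc]
      exact (sum_hom_iff _ _ _).2 ⟨hF₁s _ h, hsc⟩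
  · -- the colouring of K_28
    rintro N ⟨hN1, hN⟩
    by_contra hcon
    push Not at hcon
    let f : Fin N → Fin 28 := Fin.castLE hcon
    have hf : Function.Injective f := Fin.castLE_injective hcon
    let e : Sym2 (Fin N) → Fin 3 := fun z => ecol (z.map f)
    have he : ∀ a b, e s(a, b) = ecol s(f a, f b) := fun a b => rfl
    have hhom : ∀ i, colourGraph e i →g colourGraph ecol i := fun i =>
      ⟨f, fun {a b} h => ⟨fun h' => h.1 (hf h'), h.2⟩⟩
    rcases hN (fun a => vcol (f a)) e with h | h | h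
    · obtain ⟨x, y, z, hxy, hyz, hxz, h1, h2, h3⟩ := h
      exact ecol_gallai (f x) (f y) (f z) (fun h => hxy (hf h)) (fun h => hyz (hf h))
        (fun h => hxz (hf h)) ⟨h1, h2, h3⟩
    · obtain ⟨i, ⟨g⟩⟩ := h
      have g' := (hhom i).comp g
      obtain ⟨⟨g₁⟩, ⟨g₂⟩⟩ := (sum_hom_iff _ _ _).1 ⟨g'⟩
      fin_cases i
      · obtain ⟨K, hK, hd, hK'⟩ := exists_K0
        exact hF₁.noHom (H := colourGraph ecol 0) K hK hd (fun z w h => hK' z w h.1 h.2) g₁
      · refine hF₂.noHom (H := colourGraph ecol 1)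
          (fun i z => (z : ℕ) = i ∨ (z : ℕ) = (i + 1) % 11 ∨ 11 ≤ (z : ℕ)) ?_ ?_ g₂
        · have h : ∀ (i : Fin 11) (z w : Fin 28), ((z : ℕ) = i ∨ (z : ℕ) = (i + 1) % 11 ∨ 11 ≤ (z : ℕ)) →
            ((w : ℕ) = i ∨ (w : ℕ) = (i + 1) % 11 ∨ 11 ≤ (w : ℕ)) → ¬ (z ≠ w ∧ col z w = 1) := by
            decide +kernel
          intro i z w hz hw hadj
          exact h i z w hz hw hadj
        · have h : ∀ z : Fin 28, ∃ i j : Fin 11, i ≠ j ∧
            ((z : ℕ) = i ∨ (z : ℕ) = (i + 1) % 11 ∨ 11 ≤ (z : ℕ)) ∧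
            ((z : ℕ) = j ∨ (z : ℕ) = (j + 1) % 11 ∨ 11 ≤ (z : ℕ)) := by
            decide +kernel
          exact h
      · obtain ⟨K, hK, hd, hK'⟩ := exists_K2
        exact hF₁.noHom (H := colourGraph ecol 2) K hK hd (fun z w h => hK' z w h.1 h.2) g₁
    · obtain ⟨i, j, hij, h⟩ := h
      have hne := ecol_ne_vcol (f i) (f j) (fun h => hij.ne (hf h))
      rcases h with h | h
      · exact hne.1 h
      · exact hne.2 h

/-- There is a finite non-bipartite graph `H` with `GR*_3(H) ≥ 29 > 28 ≥ GR_2(ℋ)`. -/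
theorem result : ∃ (n : ℕ) (H : SimpleGraph (Fin n)), ¬ H.Colorable 2 ∧
    IsLeast (GRSet 2 H) (GR 2 H) ∧ IsLeast (GRStarSet 3 H) (GRStar 3 H) ∧
      GR 2 H ≤ 28 ∧ 29 ≤ GRStar 3 H := by
  obtain ⟨V, i, H₀, hcol, hGR, hStar⟩ := main
  -- transfer to `Fin n`
  let ψ : V ≃ Fin (Fintype.card V) := Fintype.equivFin V
  let H : SimpleGraph (Fin (Fintype.card V)) := H₀.comap ψ.symm
  have a1 : H →g H₀ := ⟨ψ.symm, fun h => h⟩
  have a2 : H₀ →g H := ⟨ψ, fun {x y} h => by
    show H₀.Adj (ψ.symm (ψ x)) (ψ.symm (ψ y))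
    simpa using h⟩
  have hiff : ∀ (n k : ℕ) (e : Sym2 (Fin n) → Fin k), HasMonoHomCopy H₀ e ↔ HasMonoHomCopy H e :=
    fun n k e => ⟨fun ⟨i, ⟨g⟩⟩ => ⟨i, ⟨g.comp a1⟩⟩, fun ⟨i, ⟨g⟩⟩ => ⟨i, ⟨g.comp a2⟩⟩⟩
  have hsetGR : ∀ k, GRSet k H = GRSet k H₀ := by
    intro k; ext n; simp [GRSet, hiff]
  have hsetStar : ∀ k, GRStarSet k H = GRStarSet k H₀ := by
    intro k; ext n; simp [GRStarSet, hiff]
  have hne : ∀ k, (GRSet k H).Nonempty := fun k => ConnectedCore.grSet_nonempty k H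
  have hV : Nonempty V := by
    by_contra hV
    rw [not_nonempty_iff] at hV
    exact hcol (SimpleGraph.Colorable.of_isEmpty _)
  have hneS : (GRStarSet 3 H).Nonempty := by
    obtain ⟨n, hn⟩ := hne 3
    have hV' : Nonempty (Fin (Fintype.card V)) := ⟨ψ hV.some⟩
    have hpos : 1 ≤ n := ConnectedCore.grSet_pos (V := Fin (Fintype.card V)) 3 H hn
    refine ⟨n, hpos, fun c e => ?_⟩
    rcases hn e with h | h
    · exact Or.inl h
    · exact Or.inr (Or.inl h)
  refine ⟨Fintype.card V, H, fun hc => hcol (SimpleGraph.Colorable.of_hom a2 hc),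
    ⟨Nat.sInf_mem (hne 2), fun m hm => Nat.sInf_le hm⟩,
    ⟨Nat.sInf_mem hneS, fun m hm => Nat.sInf_le hm⟩, ?_, ?_⟩
  · refine Nat.sInf_le ?_
    rw [hsetGR]
    exact hGR
  · have h := Nat.sInf_mem hneS
    rw [hsetStar] at h
    have := hStar _ h
    unfold GRStar
    rw [hsetStar]
    omega

end Pool.Agent.Results.MP_114a18_co.DisconnectedThree
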