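import Mathlib
import Pool.Agent.Lib.MP_114a18_co.Recolor
import Pool.Agent.Lib.MP_114a18_co.Tri
import Pool.Agent.Results.MP_114a18_co.ConnectedCore

/-!
# MP_114a18_co: vertex-coloured Gallai-Ramsey numbers of 3-colourable graphs

For every `k ≥ 2` and every graph `H` of chromatic number at most `3`, connected or not, the two
numbers of Q1 are equal.  (The hand-in `ConnectedCore` treats the graphs with connected core.)
-/

namespace Pool.Agent.Results.MP_114a18_co.ThreeColourable

open Pool.Agent.GallaiStar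

/-- The graph of the edges of colour `i` of an edge-colouring `e` of `K_n`. -/
def colourGraph {n k : ℕ} (e : Sym2 (Fin n) → Fin k) (i : Fin k) : SimpleGraph (Fin n) where
  Adj x y := x ≠ y ∧ e s(x, y) = i
  symm := ⟨fun x y h => ⟨h.1.symm, by rw [Sym2.eq_swap]; exact h.2⟩⟩
  loopless := ⟨fun _ h => h.1 rfl⟩

/-- The edge-colouring `e` of `K_n` has a rainbow triangle. -/
def HasRainbowTriangle {n k : ℕ} (e : Sym2 (Fin n) → Fin k) : Prop :=
  ∃ x y z : Fin n, x ≠ y ∧ y ≠ z ∧ x ≠ z ∧
    e s(x, y) ≠ e s(y, z) ∧ e s(y, z) ≠ e s(x, z) ∧ e s(x, y) ≠ e s(x, z)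

/-- The edge-colouring `e` of `K_n` contains a monochromatic homomorphic copy of `H`: for some
colour `i` there is a homomorphism from `H` to the graph of the edges of colour `i`. -/
def HasMonoHomCopy {V : Type} {n k : ℕ} (H : SimpleGraph V) (e : Sym2 (Fin n) → Fin k) : Prop :=
  ∃ i : Fin k, Nonempty (H →g colourGraph e i)

/-- The set of all `n` such that every edge-colouring of `K_n` with `k` colours and without rainbow
triangle contains a monochromatic homomorphic copy of `H`. -/
def GRSet {V : Type} (k : ℕ) (H : SimpleGraph V) : Set ℕ :=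
  {n | ∀ e : Sym2 (Fin n) → Fin k, HasRainbowTriangle e ∨ HasMonoHomCopy H e}

/-- The set of all `N ≥ 1` such that every colouring with `k` colours of the vertices (`c`) and of
the edges (`e`) of `K_N` has a rainbow triangle, or a monochromatic homomorphic copy of `H` (both
in the colouring of the edges), or an edge with the same colour as one of its endpoints. -/
def GRStarSet {V : Type} (k : ℕ) (H : SimpleGraph V) : Set ℕ :=
  {N | 1 ≤ N ∧ ∀ (c : Fin N → Fin k) (e : Sym2 (Fin N) → Fin k),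
    HasRainbowTriangle e ∨ HasMonoHomCopy H e ∨
      ∃ i j : Fin N, i < j ∧ (e s(i, j) = c i ∨ e s(i, j) = c j)}

/-- `GR_k(ℋ)`: the least `n` such that every Gallai-`k`-colouring of `K_n` contains a monochromatic
homomorphic copy of `H`. -/
noncomputable def GR {V : Type} (k : ℕ) (H : SimpleGraph V) : ℕ := sInf (GRSet k H)

/-- `GR*_k(H)`: the least `N ≥ 1` with the property of `GRStarSet`. -/
noncomputable def GRStar {V : Type} (k : ℕ) (H : SimpleGraph V) : ℕ := sInf (GRStarSet k H)

theorem norb_iff {n k : ℕ} (c : Sym2 (Fin n) → Fin k) :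
    ¬ HasRainbowTriangle c ↔ NoRb (fun x y => c s(x, y)) := by
  unfold HasRainbowTriangle NoRb
  constructor
  · intro h x y z h1 h2 h3
    by_contra hcon
    push Not at hcon
    exact h ⟨x, y, z, h1, h2, h3, hcon.1, hcon.2.1, hcon.2.2⟩
  · rintro h ⟨x, y, z, h1, h2, h3, h4, h5, h6⟩
    have := h x y z h1 h2 h3
    tauto

theorem colG_eq {n k : ℕ} (c : Sym2 (Fin n) → Fin k) (a : Fin k) :
    colG (fun x y => c s(x, y)) a = colourGraph c a := by
  ext x y
  simp only [colG, colourGraph]
  constructor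
  · rintro ⟨h1, h2, -⟩; exact ⟨h1, h2⟩
  · rintro ⟨h1, h2⟩; exact ⟨h1, h2, by rw [Sym2.eq_swap]; exact h2⟩

/-- The easy direction. -/
theorem edge_of_star {W : Type} (H : SimpleGraph W) (m : ℕ) (hm : 1 ≤ m) (N : ℕ)
    (h : N ∈ GRStarSet (m + 1) H) : N ∈ GRSet m H := by
  intro c
  obtain ⟨hN, h⟩ := h
  classical
  set c' : Sym2 (Fin N) → Fin (m + 1) := fun e => (c e).castSucc with hc'
  rcases h (fun _ => Fin.last m) c' with h1 | h1 | h1
  · left
    obtain ⟨x, y, z, h1, h2, h3, h4, h5, h6⟩ := h1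
    simp only [hc', ne_eq, Fin.castSucc_inj] at h4 h5 h6
    exact ⟨x, y, z, h1, h2, h3, h4, h5, h6⟩
  · right
    obtain ⟨a, ⟨φ⟩⟩ := h1
    by_cases ha : a = Fin.last m
    · -- `H` has no edges
      have hno : ∀ u v, ¬ H.Adj u v := by
        intro u v huv
        have h2 := φ.map_adj huv
        have h3 : (c s(φ u, φ v)).castSucc = a := h2.2
        exact absurd (h3.trans ha) (Fin.castSucc_lt_last _).ne
      exact ⟨⟨0, hm⟩, ⟨⟨fun _ => ⟨0, hN⟩, fun huv => absurd huv (hno _ _)⟩⟩⟩
    · refine ⟨a.castPred ha, ⟨⟨φ, ?_⟩⟩⟩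
      intro u v huv
      have h2 := φ.map_adj huv
      refine ⟨h2.1, ?_⟩
      have h3 : (c s(φ u, φ v)).castSucc = a := h2.2
      apply Fin.castSucc_injective
      rw [h3, Fin.castSucc_castPred]
  · obtain ⟨i, j, hij, h2⟩ := h1
    exfalso
    simp only [hc'] at h2
    rcases h2 with h2 | h2 <;> exact absurd h2 (Fin.castSucc_lt_last _).ne

/-- The main direction. -/
theorem star_of_edge {W : Type} [Nonempty W] (H : SimpleGraph W) (m : ℕ) (hm : 1 ≤ m)
    (hU : UnionOK.{0} H (Fin (m + 1))) (N : ℕ) (h : N ∈ GRSet m H) :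
    N ∈ GRStarSet (m + 1) H := by
  have hN : 1 ≤ N := by
    rcases Nat.eq_zero_or_pos N with h0 | h0
    · exfalso
      subst h0
      rcases h (fun _ => ⟨0, hm⟩) with ⟨x, -⟩ | ⟨i, ⟨φ⟩⟩
      · exact x.elim0
      · exact (φ (Classical.arbitrary W)).elim0
    · exact h0
  refine ⟨hN, fun v c => ?_⟩
  by_contra hcon
  push Not at hcon
  obtain ⟨hg, hfree, hv⟩ := hcon
  have hs : ∀ x y : Fin N, (fun x y => c s(x, y)) x y = (fun x y => c s(x, y)) y x := by
    intro x y
    simp only [Sym2.eq_swap]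
  have hfree' : ∀ a, IsEmpty (H →g colG (fun x y => c s(x, y)) a) := by
    intro a
    rw [colG_eq]
    exact not_nonempty_iff.1 fun hne => hfree ⟨a, hne⟩
  obtain ⟨c', hs', hg', hm', -, hf'⟩ := recolour H hU N (Fin N) (Fintype.card_fin N)
    (fun x y => c s(x, y)) hs ((norb_iff c).1 hg) hfree' Set.univ (by
      intro x
      refine ⟨v x, Set.mem_univ _, ?_⟩
      intro y hxy
      rcases lt_or_gt_of_ne hxy with hlt | hgt
      · exact (hv x y hlt).1
      · have := (hv y x hgt).2
        rw [Sym2.eq_swap] at this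
        exact this) (Fin.last m) (Set.mem_univ _)
  classical
  -- a map to `Fin m`
  set r : Fin (m + 1) → Fin m := fun a => if ha : a = Fin.last m then ⟨0, hm⟩ else a.castPred ha
    with hr
  have hrc : ∀ a, a ≠ Fin.last m → (r a).castSucc = a := by
    intro a ha
    simp [hr, ha]
  set d : Sym2 (Fin N) → Fin m := Sym2.lift ⟨fun x y => r (c' x y), fun x y => by
    simp only [hs' x y]⟩ with hd
  have hdv : ∀ x y, d s(x, y) = r (c' x y) := fun x y => rfl
  have hdc : ∀ x y, x ≠ y → (d s(x, y)).castSucc = c' x y := fun x y hxy => by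
    rw [hdv, hrc _ (hm' x y hxy)]
  rcases h d with hrb | ⟨a, ⟨φ⟩⟩
  · apply (norb_iff d).2 _ hrb
    intro x y z hxy hyz hxz
    rcases hg' x y z hxy hyz hxz with h1 | h1 | h1
    · left; simp only [hdv, h1]
    · right; left; simp only [hdv, h1]
    · right; right; simp only [hdv, h1]
  refine (hf' a.castSucc).false ⟨φ, ?_⟩
  intro u v huv
  have h2 := φ.map_adj huv
  rw [colG_adj hs']
  refine ⟨h2.1, ?_⟩
  rw [← hdc _ _ h2.1, h2.2]

/-- **Theorem.**  Let `k ≥ 2` and let `H` be a finite `3`-colourable graph (not necessarily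
connected).  Then `GR*_k(H) = GR_{k-1}(ℋ)`, and both numbers exist. -/
theorem result (k : ℕ) (hk : 2 ≤ k) {V : Type} [Finite V] [Nonempty V] (H : SimpleGraph V)
    (hH : H.Colorable 3) :
    GRStar k H = GR (k - 1) H ∧ IsLeast (GRStarSet k H) (GRStar k H) ∧
      IsLeast (GRSet (k - 1) H) (GR (k - 1) H) := by
  obtain ⟨m, rfl⟩ : ∃ m, k = m + 1 := ⟨k - 1, by omega⟩
  rw [Nat.add_sub_cancel]
  have hs : GRStarSet (m + 1) H = GRSet m H := by
    ext N
    exact ⟨edge_of_star H m (by omega) N,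
      star_of_edge H m (by omega) (unionOK_of_colorable H hH) N⟩
  have hne : (GRSet m H).Nonempty := by
    obtain ⟨n, hn⟩ := ConnectedCore.grSet_nonempty m H
    exact ⟨n, fun e => hn e⟩
  have hl : IsLeast (GRSet m H) (sInf (GRSet m H)) :=
    ⟨Nat.sInf_mem hne, fun m hm => Nat.sInf_le hm⟩
  refine ⟨?_, ?_, hl⟩
  · unfold GRStar GR; rw [hs]
  · unfold GRStar; rw [hs]; exact hl

end Pool.Agent.Results.MP_114a18_co.ThreeColourable
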