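import Mathlib
import Pool.Agent.Results.MP_114a18_co.ConnectedCore

/-!
# MP_114a18_co: the case of two colours
-/

namespace Pool.Agent.Results.MP_114a18_co.TwoColours

/-- The graph of the edges of colour `i` of an edge-colouring `e` of `K_n`. -/
def colourGraph {n k : ℕ} (e : Sym2 (Fin n) → Fin k) (i : Fin k) : SimpleGraph (Fin n) where
  Adj x y := x ≠ y ∧ e s(x, y) = i
  symm := ⟨fun x y h => ⟨h.1.symm, by rw [Sym2.eq_swap]; exact h.2⟩⟩
  loopless := ⟨fun _ h => h.1 rfl⟩

/-- The edge-colouring `e` of `K_n` has a rainbow triangle. -/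
def HasRainbowTriangle {n k : ℕ} (e : Sym2 (Fin n) → Fin k) : Prop :=
  ∃ x y z : Fin n, x ≠ y ∧ y ≠ z ∧ x ≠ z ∧
    e s(x, y) ≠ e s(y, z) ∧ e s(y, z) ≠ e s(x, z) ∧ e s(x, y) ≠ e s(x, z)

/-- The edge-colouring `e` of `K_n` contains a monochromatic homomorphic copy of `H`: for some
colour `i` there is a homomorphism from `H` to the graph of the edges of colour `i`. -/
def HasMonoHomCopy {V : Type} {n k : ℕ} (H : SimpleGraph V) (e : Sym2 (Fin n) → Fin k) : Prop :=
  ∃ i : Fin k, Nonempty (H →g colourGraph e i)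

/-- The set of all `n` such that every edge-colouring of `K_n` with `k` colours and without rainbow
triangle contains a monochromatic homomorphic copy of `H`. -/
def GRSet {V : Type} (k : ℕ) (H : SimpleGraph V) : Set ℕ :=
  {n | ∀ e : Sym2 (Fin n) → Fin k, HasRainbowTriangle e ∨ HasMonoHomCopy H e}

/-- The set of all `N ≥ 1` such that every colouring with `k` colours of the vertices (`c`) and of
the edges (`e`) of `K_N` has a rainbow triangle, or a monochromatic homomorphic copy of `H` (both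
in the colouring of the edges), or an edge with the same colour as one of its endpoints. -/
def GRStarSet {V : Type} (k : ℕ) (H : SimpleGraph V) : Set ℕ :=
  {N | 1 ≤ N ∧ ∀ (c : Fin N → Fin k) (e : Sym2 (Fin N) → Fin k),
    HasRainbowTriangle e ∨ HasMonoHomCopy H e ∨
      ∃ i j : Fin N, i < j ∧ (e s(i, j) = c i ∨ e s(i, j) = c j)}

/-- `GR_k(ℋ)`: the least `n` such that every Gallai-`k`-colouring of `K_n` contains a monochromatic
homomorphic copy of `H`. -/
noncomputable def GR {V : Type} (k : ℕ) (H : SimpleGraph V) : ℕ := sInf (GRSet k H)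

/-- `GR*_k(H)`: the least `N ≥ 1` with the property of `GRStarSet`. -/
noncomputable def GRStar {V : Type} (k : ℕ) (H : SimpleGraph V) : ℕ := sInf (GRStarSet k H)

/-- The easy direction. -/
theorem edge_of_star {W : Type} (H : SimpleGraph W) (m : ℕ) (hm : 1 ≤ m) (N : ℕ)
    (h : N ∈ GRStarSet (m + 1) H) : N ∈ GRSet m H := by
  intro c
  obtain ⟨hN, h⟩ := h
  classical
  set c' : Sym2 (Fin N) → Fin (m + 1) := fun e => (c e).castSucc with hc'
  rcases h (fun _ => Fin.last m) c' with h1 | h1 | h1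
  · left
    obtain ⟨x, y, z, h1, h2, h3, h4, h5, h6⟩ := h1
    simp only [hc', ne_eq, Fin.castSucc_inj] at h4 h5 h6
    exact ⟨x, y, z, h1, h2, h3, h4, h5, h6⟩
  · right
    obtain ⟨a, ⟨φ⟩⟩ := h1
    by_cases ha : a = Fin.last m
    · -- `H` has no edges
      have hno : ∀ u v, ¬ H.Adj u v := by
        intro u v huv
        have h2 := φ.map_adj huv
        have h3 : (c s(φ u, φ v)).castSucc = a := h2.2
        exact absurd (h3.trans ha) (Fin.castSucc_lt_last _).ne
      exact ⟨⟨0, hm⟩, ⟨⟨fun _ => ⟨0, hN⟩, fun huv => absurd huv (hno _ _)⟩⟩⟩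
    · refine ⟨a.castPred ha, ⟨⟨φ, ?_⟩⟩⟩
      intro u v huv
      have h2 := φ.map_adj huv
      refine ⟨h2.1, ?_⟩
      have h3 : (c s(φ u, φ v)).castSucc = a := h2.2
      apply Fin.castSucc_injective
      rw [h3, Fin.castSucc_castPred]
  · obtain ⟨i, j, hij, h2⟩ := h1
    exfalso
    simp only [hc'] at h2
    rcases h2 with h2 | h2 <;> exact absurd h2 (Fin.castSucc_lt_last _).ne

/-- **Theorem.**  `GR*_2(H) = GR_1(ℋ)` for every finite graph `H`, and both numbers exist. -/
theorem result {V : Type} [Finite V] [Nonempty V] (H : SimpleGraph V) :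
    GRStar 2 H = GR 1 H ∧ IsLeast (GRStarSet 2 H) (GRStar 2 H) ∧
      IsLeast (GRSet 1 H) (GR 1 H) := by
  have hs : GRStarSet 2 H = GRSet 1 H := by
    ext N
    refine ⟨edge_of_star H 1 (by omega) N, fun h => ?_⟩
    have hN : 1 ≤ N := by
      rcases Nat.eq_zero_or_pos N with h0 | h0
      · exfalso
        subst h0
        rcases h (fun _ => 0) with ⟨x, -⟩ | ⟨i, ⟨φ⟩⟩
        · exact x.elim0
        · exact (φ (Classical.arbitrary V)).elim0
      · exact h0
    refine ⟨hN, fun v c => ?_⟩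
    by_contra hcon
    push Not at hcon
    obtain ⟨-, hfree, hv⟩ := hcon
    have hv' : ∀ x y : Fin N, x ≠ y → c s(x, y) ≠ v x := by
      intro x y hxy
      rcases lt_or_gt_of_ne hxy with hlt | hgt
      · exact (hv x y hlt).1
      · have := (hv y x hgt).2
        rw [Sym2.eq_swap] at this
        exact this
    have key : ∀ p q r : Fin 2, p ≠ q → r ≠ q → p = r := by decide
    let i0 : Fin N := ⟨0, hN⟩
    obtain ⟨w, hw⟩ : ∃ w : Fin 2, w ≠ v i0 := by
      have : ∀ p : Fin 2, ∃ w, w ≠ p := by decide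
      exact this _
    have hvx : ∀ x, v x = v i0 := by
      intro x
      by_cases hx : x = i0
      · rw [hx]
      · have h1 := hv' i0 x (Ne.symm hx)
        have h2 := hv' x i0 hx
        rw [Sym2.eq_swap] at h2
        exact key _ _ _ h2.symm h1.symm
    have hall : ∀ x y, x ≠ y → c s(x, y) = w := by
      intro x y hxy
      have h1 := hv' x y hxy
      rw [hvx] at h1
      exact key _ _ _ h1 hw
    rcases h (fun _ => 0) with ⟨x, y, z, -, -, -, h4, -⟩ | ⟨a, ⟨φ⟩⟩
    · exact h4 rfl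
    · exact hfree ⟨w, ⟨⟨φ, fun {u v} huv => ⟨(φ.map_adj huv).1, hall _ _ (φ.map_adj huv).1⟩⟩⟩⟩
  have hne : (GRSet 1 H).Nonempty := by
    obtain ⟨n, hn⟩ := ConnectedCore.grSet_nonempty 1 H
    exact ⟨n, fun e => hn e⟩
  have hl : IsLeast (GRSet 1 H) (sInf (GRSet 1 H)) :=
    ⟨Nat.sInf_mem hne, fun m hm => Nat.sInf_le hm⟩
  refine ⟨?_, ?_, hl⟩
  · unfold GRStar GR; rw [hs]
  · unfold GRStar; rw [hs]; exact hl

end Pool.Agent.Results.MP_114a18_co.TwoColours
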